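import Mathlib
import Pool.Agent.H28.MD.Core

/-!
# Vertex partitions and maximum average degree (MP_09f43a)

An analogue for the maximum average degree of the theorem of Lovász on maximum degrees, and its
consequences for `m_cr(G, r)`: superadditivity in `r`, the lower bound `r * mad(G)`, and the
existence of `lim m_cr(G, r) / r`.
-/

namespace Pool.Agent.Results.MP_09f43a_co.MadPartition

open Finset Filter Topology

/-- Maximum average degree: the supremum (a maximum, for finite graphs) of `2|E(H)|/|V(H)|` over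
the subgraphs `H` of `F` with a nonempty vertex set. -/
noncomputable def mad {V : Type*} (F : SimpleGraph V) : ℝ :=
  sSup {x : ℝ | ∃ H : F.Subgraph, H.verts.Nonempty ∧
    x = 2 * (H.edgeSet.ncard : ℝ) / (H.verts.ncard : ℝ)}

/-- `F → (G)_r^v`: for every colouring of the vertices of `F` with `r` colours there is a copy
(not necessarily induced) of `G` in `F` all of whose vertices have the same colour. -/
def Arrows {V W : Type*} (F : SimpleGraph V) (G : SimpleGraph W) (r : ℕ) : Prop :=
  ∀ c : V → Fin r, ∃ i : Fin r, ∃ f : W → V, Function.Injective f ∧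
    (∀ a b, G.Adj a b → F.Adj (f a) (f b)) ∧ ∀ a, c (f a) = i

/-- `m_cr(G, r) = inf { mad(F) : F → (G)_r^v }`, over all finite graphs `F`. -/
noncomputable def mcr {W : Type*} (G : SimpleGraph W) (r : ℕ) : ℝ :=
  sInf {x : ℝ | ∃ (n : ℕ) (F : SimpleGraph (Fin n)), Arrows F G r ∧ x = mad F}

/-- Twice the number of edges inside `s`. -/
noncomputable def E2 {V : Type*} (F : SimpleGraph V) (s : Finset V) : ℝ :=
  open Classical in ∑ u ∈ s, ∑ v ∈ s, if F.Adj u v then (1 : ℝ) else 0

lemma two_mul_ncard_edgeSet {V : Type*} [Fintype V] (G : SimpleGraph V) :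
    2 * (G.edgeSet.ncard : ℝ) = E2 G univ := by
  classical
  have h1 := G.sum_degrees_eq_twice_card_edges
  have h2 : G.edgeSet.ncard = #G.edgeFinset := by
    rw [Set.ncard_eq_toFinset_card', SimpleGraph.edgeFinset]
  rw [h2]
  have h3 : (2 * (#G.edgeFinset : ℝ)) = ((∑ v, G.degree v : ℕ) : ℝ) := by
    rw [h1]; push_cast; ring
  rw [h3]
  push_cast
  unfold E2
  apply Finset.sum_congr rfl
  intro v _
  rw [← SimpleGraph.card_neighborFinset_eq_degree, SimpleGraph.neighborFinset_eq_filter,
    Finset.card_filter]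
  push_cast
  rfl

lemma E2_le_sq {V : Type*} (F : SimpleGraph V) (s : Finset V) :
    E2 F s ≤ (s.card : ℝ) * s.card := by
  classical
  unfold E2
  calc _ ≤ ∑ u ∈ s, ∑ v ∈ s, (1 : ℝ) := by
        apply Finset.sum_le_sum; intro u _
        apply Finset.sum_le_sum; intro v _
        split_ifs <;> norm_num
    _ = _ := by simp

/-- The characterisation of `mad F ≤ x`. -/
lemma mad_le_iff {V : Type*} [Finite V] (F : SimpleGraph V) {x : ℝ} (hx : 0 ≤ x) :
    mad F ≤ x ↔ ∀ s : Finset V, E2 F s ≤ x * s.card := by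
  classical
  have := Fintype.ofFinite V
  have hcoe : ∀ H : F.Subgraph, 2 * (H.edgeSet.ncard : ℝ) = E2 H.spanningCoe univ := by
    intro H
    rw [← SimpleGraph.Subgraph.edgeSet_spanningCoe]
    exact two_mul_ncard_edgeSet _
  constructor
  · intro h s
    rcases s.eq_empty_or_nonempty with rfl | hs
    · simp [E2]
    · let H : F.Subgraph := (⊤ : F.Subgraph).induce (s : Set V)
      have hv : H.verts = (s : Set V) := rfl
      have hE : E2 H.spanningCoe univ = E2 F s := by
        unfold E2
        have e1 : ∀ u v : V, (if H.spanningCoe.Adj u v then (1 : ℝ) else 0)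
            = if u ∈ s then (if v ∈ s then (if F.Adj u v then 1 else 0) else 0) else 0 := by
          intro u v
          have : H.spanningCoe.Adj u v ↔ u ∈ s ∧ v ∈ s ∧ F.Adj u v := by
            simp [H, SimpleGraph.Subgraph.induce]
          simp only [this]
          by_cases hu : u ∈ s <;> by_cases hv : v ∈ s <;> simp [hu, hv]
        simp_rw [e1]
        rw [← Finset.sum_filter_add_sum_filter_not univ (fun u => u ∈ s)]
        have e2 : ∑ x ∈ univ.filter (fun u => u ∉ s),
            ∑ v, (if x ∈ s then (if v ∈ s then (if F.Adj x v then (1 : ℝ) else 0) else 0)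
              else 0) = 0 := by
          apply Finset.sum_eq_zero
          intro x hx
          rw [mem_filter] at hx
          simp [hx.2]
        rw [e2, add_zero]
        have e3 : univ.filter (fun u => u ∈ s) = s := by
          ext x; simp
        rw [e3]
        apply Finset.sum_congr rfl
        intro x hx
        simp only [hx, if_true]
        rw [Finset.sum_ite_mem, Finset.univ_inter]
      have hmem : 2 * (H.edgeSet.ncard : ℝ) / (H.verts.ncard : ℝ) ≤ mad F := by
        unfold mad
        apply le_csSup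
        · have : {x : ℝ | ∃ H : F.Subgraph, H.verts.Nonempty ∧
              x = 2 * (H.edgeSet.ncard : ℝ) / (H.verts.ncard : ℝ)} ⊆
              Set.range (fun H : F.Subgraph =>
                2 * (H.edgeSet.ncard : ℝ) / (H.verts.ncard : ℝ)) := by
            rintro y ⟨H, -, rfl⟩
            exact ⟨H, rfl⟩
          exact ((Set.finite_range _).subset this).bddAbove
        · exact ⟨H, by rw [hv]; exact hs, rfl⟩
      rw [hcoe H, hE, hv, Set.ncard_coe_finset] at hmem
      have hpos : (0 : ℝ) < s.card := by exact_mod_cast hs.card_pos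
      have := hmem.trans h
      rwa [div_le_iff₀ hpos] at this
  · intro h
    unfold mad
    apply Real.sSup_le _ hx
    rintro y ⟨H, hne, rfl⟩
    have hs : H.verts = (H.verts.toFinset : Set V) := by simp
    set s := H.verts.toFinset with hsdef
    have hcard : (0 : ℝ) < (s.card : ℝ) := by
      have : s.Nonempty := by
        rw [hsdef]; simpa using hne
      exact_mod_cast this.card_pos
    rw [hcoe H, hs, Set.ncard_coe_finset, div_le_iff₀ hcard]
    refine le_trans ?_ (h s)
    unfold E2
    have e1 : ∑ u, ∑ v, (if H.spanningCoe.Adj u v then (1 : ℝ) else 0)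
        = ∑ u ∈ s, ∑ v ∈ s, (if H.spanningCoe.Adj u v then (1 : ℝ) else 0) := by
      symm
      have f1 : ∀ u, ∑ v ∈ s, (if H.spanningCoe.Adj u v then (1 : ℝ) else 0)
          = ∑ v, (if H.spanningCoe.Adj u v then (1 : ℝ) else 0) := by
        intro u
        apply Finset.sum_subset (Finset.subset_univ _)
        intro v _ hv
        have : ¬ H.spanningCoe.Adj u v := by
          intro hadj
          apply hv
          rw [hsdef]
          simpa using H.edge_vert hadj.symm
        simp only [this, if_false]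
      simp_rw [f1]
      apply Finset.sum_subset (Finset.subset_univ _)
      intro u _ hu
      apply Finset.sum_eq_zero
      intro v _
      have : ¬ H.spanningCoe.Adj u v := by
        intro hadj
        apply hu
        rw [hsdef]
        simpa using H.edge_vert hadj
      simp only [this, if_false]
    rw [e1]
    apply Finset.sum_le_sum; intro u _
    apply Finset.sum_le_sum; intro v _
    by_cases hadj : H.spanningCoe.Adj u v
    · have : F.Adj u v := H.adj_sub hadj
      simp only [hadj, this, if_true, le_refl]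
    · simp only [hadj, if_false]
      split_ifs <;> norm_num

lemma mad_nonneg {V : Type*} (F : SimpleGraph V) : 0 ≤ mad F := by
  unfold mad
  apply Real.sSup_nonneg
  rintro y ⟨H, -, rfl⟩
  positivity

lemma E2_le_mad {V : Type*} [Finite V] (F : SimpleGraph V) (s : Finset V) :
    E2 F s ≤ mad F * s.card :=
  (mad_le_iff F (mad_nonneg F)).mp le_rfl s

/-- Edges inside the image of a set under an embedding which preserves adjacency. -/
lemma E2_map_le {V W : Type*} (G : SimpleGraph W) (F : SimpleGraph V) (f : W ↪ V)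
    (hf : ∀ a b, G.Adj a b → F.Adj (f a) (f b)) (s : Finset W) :
    E2 G s ≤ E2 F (s.map f) := by
  classical
  unfold E2
  rw [Finset.sum_map]
  apply Finset.sum_le_sum; intro u _
  rw [Finset.sum_map]
  apply Finset.sum_le_sum; intro v _
  by_cases h : G.Adj u v
  · simp [h, hf u v h]
  · simp only [h, if_false]
    split_ifs <;> norm_num

lemma mad_mono {V W : Type*} [Finite V] [Finite W] (G : SimpleGraph W) (F : SimpleGraph V)
    (f : W → V) (hinj : Function.Injective f) (hf : ∀ a b, G.Adj a b → F.Adj (f a) (f b)) :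
    mad G ≤ mad F := by
  rw [mad_le_iff G (mad_nonneg F)]
  intro s
  refine (E2_map_le G F ⟨f, hinj⟩ hf s).trans ?_
  have := E2_le_mad F (s.map ⟨f, hinj⟩)
  rwa [Finset.card_map] at this

/-- The partition theorem. -/
theorem partition {V : Type*} [Finite V] (F : SimpleGraph V) {r : ℕ} (hr : 1 ≤ r)
    (a : Fin r → ℝ) (ha : ∀ i, 0 ≤ a i) (hF : mad F ≤ ∑ i, a i) :
    ∃ c : V → Fin r, ∀ i, mad (F.induce {v | c v = i}) ≤ a i := by
  classical
  have := Fintype.ofFinite V
  have hE : ∀ s : Finset V, E2 F s ≤ (∑ i, a i) * s.card :=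
    (mad_le_iff F (Finset.sum_nonneg fun i _ => ha i)).mp hF
  -- it suffices to control the sets inside the classes
  suffices h : ∃ c : V → Fin r, ∀ i, ∀ s : Finset V, (∀ v ∈ s, c v = i) →
      E2 F s ≤ a i * s.card by
    obtain ⟨c, hc⟩ := h
    refine ⟨c, fun i => ?_⟩
    rw [mad_le_iff _ (ha i)]
    intro s
    have h1 := E2_map_le (F.induce {v | c v = i}) F (Function.Embedding.subtype _)
      (fun x y hxy => hxy) s
    have h2 := hc i (s.map (Function.Embedding.subtype _)) (by
      intro v hv
      rw [Finset.mem_map] at hv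
      obtain ⟨x, -, rfl⟩ := hv
      exact x.2)
    rw [Finset.card_map] at h2
    exact h1.trans h2
  rcases (Finset.sum_nonneg fun i _ => ha i : 0 ≤ ∑ i, a i).eq_or_lt with h0 | hpos
  · refine ⟨fun _ => ⟨0, hr⟩, ?_⟩
    intro i s _
    have h1 := hE s
    rw [← h0, zero_mul] at h1
    exact h1.trans (mul_nonneg (ha i) (by positivity))
  · let ι := {i : Fin r // 0 < a i}
    have : Nonempty ι := by
      by_contra hne
      rw [not_nonempty_iff] at hne
      have : ∑ i, a i = 0 := by
        apply Finset.sum_eq_zero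
        intro i _
        by_contra hi
        exact hne.false ⟨i, lt_of_le_of_ne (ha i) (Ne.symm hi)⟩
      linarith
    let p : ι → ℝ := fun i => a i.1 / ∑ i, a i
    have hp : ∀ i, 0 < p i := fun i => div_pos i.2 hpos
    have hp1 : ∑ i, p i = 1 := by
      have e1 : ∑ i : ι, a i.1 = ∑ i, a i := by
        rw [← Finset.sum_subtype (p := fun i => 0 < a i) (F := inferInstance)
          (univ.filter (fun i => 0 < a i)) (by intro x; simp) a]
        apply Finset.sum_subset (Finset.subset_univ _)
        intro x _ hx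
        rw [mem_filter] at hx
        by_contra hne
        exact hx ⟨mem_univ _, lt_of_le_of_ne (ha x) (Ne.symm hne)⟩
      simp only [p]
      rw [← Finset.sum_div, e1, div_self hpos.ne']
    obtain ⟨col, hcol⟩ := Pool.Agent.H28.MD.split_pos
      (fun u v => if F.Adj u v then (1 : ℝ) else 0)
      (by intro u v; simp only [SimpleGraph.adj_comm])
      (by intro v; simp)
      (by intro u v; split_ifs <;> norm_num)
      ((∑ i, a i) / 2)
      (by
        intro s
        have := hE s
        unfold E2 at this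
        calc _ ≤ _ := this
          _ = _ := by ring)
      p hp hp1
    refine ⟨fun v => (col v).1, ?_⟩
    intro i s hs
    rcases s.eq_empty_or_nonempty with rfl | ⟨v, hv⟩
    · simp [E2]
    · have hi : 0 < a i := by
        rw [← hs v hv]; exact (col v).2
      have h1 := hcol ⟨i, hi⟩ s (fun v hv => Subtype.ext (hs v hv))
      have h2 : 2 * (p ⟨i, hi⟩ * ((∑ i, a i) / 2)) = a i := by
        simp only [p]
        field_simp
      rw [h2] at h1
      unfold E2
      exact h1

lemma mcr_bddBelow {W : Type*} (G : SimpleGraph W) (r : ℕ) :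
    BddBelow {x : ℝ | ∃ (n : ℕ) (F : SimpleGraph (Fin n)), Arrows F G r ∧ x = mad F} := by
  refine ⟨0, ?_⟩
  rintro x ⟨n, F, -, rfl⟩
  exact mad_nonneg F

lemma mcr_le {V W : Type*} [Finite V] (F : SimpleGraph V) (G : SimpleGraph W) (r : ℕ)
    (h : Arrows F G r) : mcr G r ≤ mad F := by
  classical
  have := Fintype.ofFinite V
  let e : F ≃g F.overFin rfl := F.overFinIso rfl
  have h1 : mad (F.overFin (rfl : Fintype.card V = Fintype.card V)) ≤ mad F := by
    apply mad_mono _ _ e.symm e.symm.injective
    intro a b hab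
    exact e.symm.map_rel_iff.mpr hab
  refine le_trans ?_ h1
  unfold mcr
  apply csInf_le (mcr_bddBelow G r)
  refine ⟨_, _, ?_, rfl⟩
  intro c
  obtain ⟨i, f, hf1, hf2, hf3⟩ := h (fun v => c (e v))
  exact ⟨i, fun w => e (f w), e.injective.comp hf1,
    fun a b hab => e.map_rel_iff.mpr (hf2 a b hab), hf3⟩

/-- The complete graph on `r |W|` vertices arrows `G`. -/
lemma arrows_top {W : Type*} [Finite W] (G : SimpleGraph W) {r : ℕ} (hr : 1 ≤ r) :
    Arrows (⊤ : SimpleGraph (Fin (r * Nat.card W))) G r := by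
  classical
  have := Fintype.ofFinite W
  intro c
  have : Nonempty (Fin r) := ⟨⟨0, hr⟩⟩
  obtain ⟨i, hi⟩ := Fintype.exists_le_card_fiber_of_mul_le_card c
    (n := Nat.card W) (by simp)
  set T := univ.filter (fun x => c x = i) with hT
  have : Fintype.card W ≤ Fintype.card T := by
    rw [Fintype.card_coe, ← Nat.card_eq_fintype_card]
    exact hi
  obtain ⟨g⟩ : Nonempty (W ↪ T) := Function.Embedding.nonempty_of_card_le this
  refine ⟨i, fun w => (g w).1, ?_, ?_, ?_⟩
  · intro a b hab
    exact g.injective (Subtype.ext hab)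
  · intro a b hab
    rw [SimpleGraph.top_adj]
    intro h
    exact hab.ne (g.injective (Subtype.ext h))
  · intro a
    exact (mem_filter.mp (g a).2).2

lemma mad_top_le (N : ℕ) : mad (⊤ : SimpleGraph (Fin N)) ≤ N := by
  rw [mad_le_iff _ (by positivity)]
  intro s
  refine (E2_le_sq _ s).trans ?_
  have : s.card ≤ N := by
    simpa using Finset.card_le_univ s
  have h : (s.card : ℝ) ≤ N := by exact_mod_cast this
  exact mul_le_mul_of_nonneg_right h (by positivity)

lemma mcr_nonempty {W : Type*} [Finite W] (G : SimpleGraph W) {r : ℕ} (hr : 1 ≤ r) :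
    {x : ℝ | ∃ (n : ℕ) (F : SimpleGraph (Fin n)), Arrows F G r ∧ x = mad F}.Nonempty :=
  ⟨_, _, _, arrows_top G hr, rfl⟩

lemma mcr_nonneg {W : Type*} (G : SimpleGraph W) (r : ℕ) : 0 ≤ mcr G r := by
  unfold mcr
  apply Real.sInf_nonneg
  rintro x ⟨n, F, -, rfl⟩
  exact mad_nonneg F

lemma mcr_upper {W : Type*} [Finite W] (G : SimpleGraph W) {r : ℕ} (hr : 1 ≤ r) :
    mcr G r ≤ r * Nat.card W := by
  have := (mcr_le _ G r (arrows_top G hr)).trans (mad_top_le _)
  exact_mod_cast this

lemma mcr_zero {W : Type*} (G : SimpleGraph W) : mcr G 0 = 0 := by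
  apply le_antisymm _ (mcr_nonneg G 0)
  have h1 : Arrows (⊥ : SimpleGraph (Fin 1)) G 0 := fun c => (c 0).elim0
  refine (mcr_le _ G 0 h1).trans ?_
  rw [mad_le_iff _ le_rfl]
  intro s
  simp [E2]

lemma arrows_of_le {V W : Type*} (F : SimpleGraph V) (G : SimpleGraph W) {r s : ℕ}
    (h : Arrows F G (r + s)) (hr : 1 ≤ r) : Arrows F G r := by
  intro c
  obtain ⟨i, f, hf1, hf2, hf3⟩ := h (fun v => Fin.castAdd s (c v))
  by_cases hi : (i : ℕ) < r
  · refine ⟨⟨i, hi⟩, f, hf1, hf2, fun a => ?_⟩
    have h2 : (Fin.castAdd s (c (f a)) : ℕ) = i := congrArg Fin.val (hf3 a)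
    exact Fin.ext h2
  · refine ⟨⟨0, hr⟩, f, hf1, hf2, fun a => ?_⟩
    exfalso
    have := hf3 a
    apply hi
    rw [← this]
    exact (c (f a)).2

/-- Superadditivity. -/
theorem mcr_superadd {W : Type*} [Finite W] (G : SimpleGraph W) {r s : ℕ}
    (hr : 1 ≤ r) (hs : 1 ≤ s) : mcr G r + mcr G s ≤ mcr G (r + s) := by
  classical
  conv_rhs => unfold mcr
  apply le_csInf (mcr_nonempty G (by omega))
  rintro x ⟨n, F, hF, rfl⟩
  by_contra hlt
  push Not at hlt
  have hr0 := mcr_nonneg G r
  have hs0 := mcr_nonneg G s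
  rcases hr0.eq_or_lt with hr1 | hr1
  · rw [← hr1, zero_add] at hlt
    have := mcr_le F G s (arrows_of_le F G (by rwa [add_comm] at hF) hs)
    linarith
  rcases hs0.eq_or_lt with hs1 | hs1
  · rw [← hs1, add_zero] at hlt
    have := mcr_le F G r (arrows_of_le F G hF hr)
    linarith
  -- split the two positive values
  set m := mad F with hm
  have hm0 : 0 ≤ m := mad_nonneg F
  set A := mcr G r with hA
  set B := mcr G s with hB
  have hAB : 0 < A + B := by linarith
  let a : Fin 2 → ℝ := ![m * (A / (A + B)), m * (B / (A + B))]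
  have hsum : ∑ i, a i = m := by
    simp only [a, Fin.sum_univ_two, Matrix.cons_val_zero, Matrix.cons_val_one]
    field_simp
  have ha0 : a 0 = m * (A / (A + B)) := rfl
  have ha1 : a 1 = m * (B / (A + B)) := rfl
  have hann : ∀ i, 0 ≤ a i := by
    intro i
    fin_cases i
    · show 0 ≤ a 0
      rw [ha0]; positivity
    · show 0 ≤ a 1
      rw [ha1]; positivity
  obtain ⟨c, hc⟩ := partition F (by norm_num : 1 ≤ 2) a hann (by rw [hsum])
  have hlt0 : mad (F.induce {v | c v = 0}) < A := by
    refine (hc 0).trans_lt ?_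
    rw [ha0, mul_div_assoc', div_lt_iff₀ hAB]
    nlinarith
  have hlt1 : mad (F.induce {v | c v = 1}) < B := by
    refine (hc 1).trans_lt ?_
    rw [ha1, mul_div_assoc', div_lt_iff₀ hAB]
    nlinarith
  have hn0 : ¬ Arrows (F.induce {v | c v = 0}) G r := fun h =>
    absurd (mcr_le _ G r h) (not_le.mpr hlt0)
  have hn1 : ¬ Arrows (F.induce {v | c v = 1}) G s := fun h =>
    absurd (mcr_le _ G s h) (not_le.mpr hlt1)
  unfold Arrows at hn0 hn1
  push Not at hn0 hn1
  obtain ⟨c0, hc0⟩ := hn0
  obtain ⟨c1, hc1⟩ := hn1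
  have hdich : ∀ v, c v ≠ 0 → c v = 1 := by
    intro v hv
    exact Fin.eq_one_of_ne_zero _ hv
  let col : Fin n → Fin (r + s) := fun v =>
    if h : c v = 0 then Fin.castAdd s (c0 ⟨v, h⟩) else Fin.natAdd r (c1 ⟨v, hdich v h⟩)
  obtain ⟨i, f, hf1, hf2, hf3⟩ := hF col
  rcases lt_or_ge (i : ℕ) r with hi | hi
  · have hcf : ∀ w, c (f w) = 0 := by
      intro w
      by_contra hne
      have h1 := hf3 w
      simp only [col, dif_neg hne] at h1
      rw [← h1] at hi
      simp at hi
    obtain ⟨w, hw⟩ := hc0 ⟨i, hi⟩ (fun w => ⟨f w, hcf w⟩)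
      (fun x y hxy => hf1 (congrArg Subtype.val hxy))
      (fun x y hxy => hf2 x y hxy)
    apply hw
    have h1 := hf3 w
    simp only [col, dif_pos (hcf w)] at h1
    have h2 : (Fin.castAdd s (c0 ⟨f w, hcf w⟩) : ℕ) = i := congrArg Fin.val h1
    exact Fin.ext h2
  · have hcf : ∀ w, c (f w) ≠ 0 := by
      intro w h0
      have h1 := hf3 w
      simp only [col, dif_pos h0] at h1
      rw [← h1] at hi
      have := (c0 ⟨f w, h0⟩).2
      simp at hi
      omega
    obtain ⟨w, hw⟩ := hc1 ⟨i - r, by omega⟩ (fun w => ⟨f w, hdich _ (hcf w)⟩)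
      (fun x y hxy => hf1 (congrArg Subtype.val hxy))
      (fun x y hxy => hf2 x y hxy)
    apply hw
    have h1 := hf3 w
    simp only [col, dif_neg (hcf w)] at h1
    apply Fin.ext
    have h2 := congrArg Fin.val h1
    simp only [Fin.val_natAdd] at h2
    show (c1 ⟨f w, hdich _ (hcf w)⟩ : ℕ) = (i : ℕ) - r
    omega

/-- One colour. -/
theorem mcr_one {W : Type*} [Finite W] (G : SimpleGraph W) : mcr G 1 = mad G := by
  apply le_antisymm
  · apply mcr_le
    intro c
    exact ⟨0, id, Function.injective_id, fun a b h => h, fun a => Subsingleton.elim _ _⟩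
  · unfold mcr
    apply le_csInf (mcr_nonempty G le_rfl)
    rintro x ⟨n, F, hF, rfl⟩
    obtain ⟨i, f, hf1, hf2, -⟩ := hF (fun _ => 0)
    exact mad_mono G F f hf1 hf2

theorem mcr_lower {W : Type*} [Finite W] (G : SimpleGraph W) {r : ℕ} (hr : 1 ≤ r) :
    r * mad G ≤ mcr G r := by
  induction r, hr using Nat.le_induction with
  | base => simp [mcr_one]
  | succ n hn ih =>
    have := mcr_superadd G hn le_rfl
    rw [mcr_one] at this
    push_cast
    linarith

theorem mcr_lim {W : Type*} [Finite W] (G : SimpleGraph W) :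
    ∃ L : ℝ, Tendsto (fun r : ℕ => mcr G r / r) atTop (𝓝 L) ∧
      ∀ r : ℕ, mcr G r ≤ r * L := by
  have hsub : Subadditive (fun r : ℕ => -mcr G r) := by
    intro r s
    show -mcr G (r + s) ≤ -mcr G r + -mcr G s
    rcases Nat.eq_zero_or_pos r with rfl | hr
    · simp [mcr_zero]
    rcases Nat.eq_zero_or_pos s with rfl | hs
    · simp [mcr_zero]
    have := mcr_superadd G hr hs
    linarith
  have hbdd : BddBelow (Set.range fun r : ℕ => -mcr G r / r) := by
    refine ⟨-(Nat.card W : ℝ), ?_⟩
    rintro _ ⟨r, rfl⟩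
    rcases Nat.eq_zero_or_pos r with rfl | hr
    · simp
    have h1 := mcr_upper G hr
    have h2 : (0 : ℝ) < r := by exact_mod_cast hr
    show -(Nat.card W : ℝ) ≤ -mcr G r / r
    rw [le_div_iff₀ h2]
    linarith
  refine ⟨-hsub.lim, ?_, ?_⟩
  · have h1 := (hsub.tendsto_lim hbdd).neg
    refine h1.congr ?_
    intro r
    ring
  · intro r
    rcases Nat.eq_zero_or_pos r with rfl | hr
    · simp [mcr_zero]
    have h1 := hsub.lim_le_div hbdd (n := r) hr.ne'
    have h2 : (0 : ℝ) < r := by exact_mod_cast hr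
    rw [le_div_iff₀ h2] at h1
    linarith

/-- **Main result.**  (1) If `a_i ≥ 0` and `mad(F) ≤ ∑ a_i`, the vertices of the finite graph `F`
can be coloured with `r ≥ 1` colours so that the graph induced by colour `i` has maximum average
degree at most `a_i`.  (2) Hence `m_cr(G, ·)` is superadditive; as `m_cr(G, 1) = mad(G)`, this
gives `m_cr(G, r) ≥ r * mad(G)`, and `m_cr(G, r) / r` converges to its supremum. -/
theorem result :
    (∀ (V : Type) [Finite V] (F : SimpleGraph V) (r : ℕ) (a : Fin r → ℝ), 1 ≤ r →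
      (∀ i, 0 ≤ a i) → mad F ≤ ∑ i, a i →
      ∃ c : V → Fin r, ∀ i, mad (F.induce {v | c v = i}) ≤ a i) ∧
    ∀ (W : Type) [Finite W] (G : SimpleGraph W),
      mcr G 1 = mad G ∧
      (∀ r s : ℕ, 1 ≤ r → 1 ≤ s → mcr G r + mcr G s ≤ mcr G (r + s)) ∧
      (∀ r : ℕ, 1 ≤ r → r * mad G ≤ mcr G r) ∧
      ∃ L : ℝ, Tendsto (fun r : ℕ => mcr G r / r) atTop (𝓝 L) ∧
        ∀ r : ℕ, 1 ≤ r → mcr G r ≤ r * L := by
  refine ⟨fun V _ F r a hr ha hF => partition F hr a ha hF, fun W _ G => ?_⟩
  obtain ⟨L, hL1, hL2⟩ := mcr_lim G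
  exact ⟨mcr_one G, fun r s hr hs => mcr_superadd G hr hs, fun r hr => mcr_lower G hr,
    L, hL1, fun r _ => hL2 r⟩

end Pool.Agent.Results.MP_09f43a_co.MadPartition
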