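import Mathlib
import Pool.Agent.H68.CRc

/-!
# Reduction to the core for vertex Ramsey graphs (MP_09f43a)

`mad`, `Arrows` and `mcr` are the definitions of the hand-in `MadPartition` of the same problem:
maximum average degree, `F → (G)_r^v`, and `m_cr(G, r)`.

For a real `x`, `core x G` is the union of all the vertex sets `T` all of whose vertices have more
than `x / 2` neighbours in `T` (so it is the largest such set), and `dstar G` is the degeneracy.
They are restated here, and `core_eq`, `dstar_eq` show that these are the definitions used in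
the helper files.
-/

namespace Pool.Agent.Results.MP_09f43a_co.CoreReduction

open Pool.Agent.Results.MP_09f43a_co.MadPartition

/-- The union of all sets `T` of vertices such that every vertex of `T` has more than `x / 2`
neighbours in `T`. -/
def core (x : ℝ) {W : Type} (G : SimpleGraph W) : Set W :=
  ⋃₀ {T : Set W | ∀ v ∈ T, x < 2 * ({u : W | u ∈ T ∧ G.Adj v u}.ncard : ℝ)}

/-- The degeneracy `d*(G)`: the largest minimum degree of a subgraph with a nonempty vertex
set. -/
noncomputable def dstar {W : Type} (G : SimpleGraph W) : ℕ :=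
  sSup {k : ℕ | ∃ H : G.Subgraph, H.verts.Nonempty ∧ ∀ v ∈ H.verts, k ≤ (H.neighborSet v).ncard}

lemma core_eq (x : ℝ) {W : Type} (G : SimpleGraph W) : core x G = Pool.Agent.H68.CR.core x G := rfl

lemma dstar_eq {W : Type} (G : SimpleGraph W) : dstar G = Pool.Agent.H68.CR.dstar G := rfl

/-- **Main result.**  Let `G` be a finite graph and `r ≥ 1`.
(1) For every real `x`, `m_cr(G, r)` is at most the maximum of `mad(G) + (r - 1) x` and of the
numbers `m_cr(G[core x G], k) + (r - k) x`, `1 ≤ k ≤ r`.
(2) `m_cr(G, r) ≤ mad(G) + 2 (r - 1) d*(G)`.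
(3) If every component of `G[core x G]` has at most `x + 1` vertices, `m_cr(G, r) ≤ r x`.
(4) `m_cr(G, r) = m_cr(G[core (mad G) G], r)`.
(5) If every component of `G[core (mad G) G]` has at most `mad(G) + 1` vertices, then
`m_cr(G, r) = r * mad(G)`. -/
theorem result (W : Type) [Finite W] (G : SimpleGraph W) (r : ℕ) (hr : 1 ≤ r) :
    (∀ x B : ℝ, mad G + ((r : ℝ) - 1) * x ≤ B →
      (∀ k : ℕ, 1 ≤ k → k ≤ r → mcr (G.induce (core x G)) k + ((r : ℝ) - k) * x ≤ B) →
      mcr G r ≤ B) ∧
    mcr G r ≤ mad G + 2 * ((r : ℝ) - 1) * dstar G ∧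
    (∀ x : ℝ, 0 ≤ x →
      (∀ C : (G.induce (core x G)).ConnectedComponent, (C.supp.ncard : ℝ) ≤ x + 1) →
      mcr G r ≤ r * x) ∧
    mcr G r = mcr (G.induce (core (mad G) G)) r ∧
    ((∀ C : (G.induce (core (mad G) G)).ConnectedComponent,
        (C.supp.ncard : ℝ) ≤ mad G + 1) →
      mcr G r = r * mad G) :=
  ⟨fun x B h1 h2 => Pool.Agent.H68.CR.mcr_le_core x G hr B h1 h2,
    Pool.Agent.H68.CR.mcr_le_dstar G hr,
    fun x hx hC => Pool.Agent.H68.CR.mcr_le_comp x hx G hr hC,
    Pool.Agent.H68.CR.mcr_core G hr,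
    fun hC => Pool.Agent.H68.CR.mcr_exact G hr hC⟩

end Pool.Agent.Results.MP_09f43a_co.CoreReduction
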