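import Mathlib
import Pool.Agent.Results.MP_09f43a_co.CoreReduction
import Pool.Agent.H68.BB.Width

/-!
# A block bound for vertex Ramsey graphs, sharp at every ratio (MP_09f43a)

`mad`, `Arrows` and `mcr` are the definitions of the hand-in `MadPartition` of the same problem
(maximum average degree, `F → (G)_r^v` and `m_cr(G, r)`), and `dstar`, the degeneracy, is that of
the hand-in `CoreReduction`.

An ordered partition of the vertex set into blocks is given by a function `β` to the natural
numbers; its blocks are the sets on which `β` is constant, in increasing order of `β`.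
-/

namespace Pool.Agent.Results.MP_09f43a_co.BlockBound

open Pool.Agent.Results.MP_09f43a_co.MadPartition
open Pool.Agent.Results.MP_09f43a_co.CoreReduction (dstar)

/-- The cost of the block `B` of `v`: `|B| - 1 + 2 |N|`, where `N` is the set of the vertices of
earlier blocks that have a neighbour in `B`. -/
noncomputable def blockCost {W : Type} (G : SimpleGraph W) (β : W → ℕ) (v : W) : ℕ :=
  ({u | β u = β v}.ncard - 1) + 2 * {w | β w < β v ∧ ∃ u, β u = β v ∧ G.Adj u w}.ncard

/-- The block width `b(G)`: the least `x` such that some ordered partition of the vertex set into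
blocks has all its block costs at most `x`. -/
noncomputable def blockWidth {W : Type} (G : SimpleGraph W) : ℕ :=
  sInf {x : ℕ | ∃ β : W → ℕ, ∀ v, blockCost G β v ≤ x}

lemma blockWidth_eq {W : Type} (G : SimpleGraph W) :
    blockWidth G = Pool.Agent.H68.BB.bw G := rfl

/-- **Main result.**  The block width `b(G)` bounds `m_cr(G, r)`: for every finite graph `G`,
`b(G) ≤ 2 d*(G)` and `m_cr(G, r) ≤ r b(G)` for all `r ≥ 1`, with equality if `b(G) ≤ mad(G)`.
The bound is sharp up to `ε` at every ratio `b(G) / d*(G)` in `[1, 2]`, for all `r` at once: for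
`1 ≤ α ≤ 2` and `ε > 0` some `G` has `|b(G) - α d*(G)| ≤ ε d*(G)` and
`m_cr(G, r) ≥ r (b(G) - ε d*(G))` for all `r ≥ 1`. -/
theorem result :
    (∀ (W : Type) [Finite W] (G : SimpleGraph W), blockWidth G ≤ 2 * dstar G ∧
      ∀ r : ℕ, 1 ≤ r → mcr G r ≤ r * blockWidth G ∧
        ((blockWidth G : ℝ) ≤ mad G → mcr G r = r * blockWidth G)) ∧
    (∀ α : ℝ, 1 ≤ α → α ≤ 2 → ∀ ε : ℝ, 0 < ε →
      ∃ (W : Type) (_ : Finite W) (G : SimpleGraph W), 1 ≤ dstar G ∧
        |(blockWidth G : ℝ) - α * dstar G| ≤ ε * dstar G ∧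
        ∀ r : ℕ, 1 ≤ r → r * (blockWidth G - ε * dstar G) ≤ mcr G r) := by
  refine ⟨?_, ?_⟩
  · intro W _ G
    refine ⟨Pool.Agent.H68.BB.bw_le G, fun r hr => ?_⟩
    have h1 := Pool.Agent.H68.BB.mcr_le_bw G hr
    refine ⟨h1, fun hx => le_antisymm h1 ?_⟩
    exact (mul_le_mul_of_nonneg_left hx (by positivity)).trans (mcr_lower G hr)
  · intro α h1 h2 ε hε
    exact Pool.Agent.H68.BB.ratio_bw h1 h2 hε

end Pool.Agent.Results.MP_09f43a_co.BlockBound
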