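import Mathlib
import Pool.Agent.H55.SR.Kdk

/-!
# The second order term of `m_cr` for bipartite graphs with a side of bounded degree (MP_09f43a)

`mad`, `Arrows` and `mcr` are the definitions of the hand-in `MadPartition` of the same problem:
maximum average degree, `F → (G)_r^v`, and `m_cr(G, r)`.
-/

namespace Pool.Agent.Results.MP_09f43a_co.SecondOrder

open Pool.Agent.Results.MP_09f43a_co.MadPartition
open Filter Topology

/-- **Main result.**  Let `r, d ≥ 1`.  There is a constant `C`, depending on `r` and `d` only, such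
that, for every finite bipartite graph `G` one side `Y` of which has all degrees at most `d`,
`mad(G) < 2d` and
`mad(G) + 2(r - 1)d - C (2d - mad(G))^(3/2) ≤ m_cr(G, r) ≤ mad(G) + 2(r - 1)d`.
Consequently `k (2rd - m_cr(K_{d,k}, r)) → 2d²` as `k → ∞`. -/
theorem result (r d : ℕ) (hr : 1 ≤ r) (hd : 1 ≤ d) :
    (∃ C : ℝ, 0 < C ∧
      ∀ (W : Type) [Finite W] (G : SimpleGraph W) (Y : Set W),
        (∀ a b, G.Adj a b → (a ∈ Y ↔ b ∉ Y)) → (∀ y ∈ Y, (G.neighborSet y).ncard ≤ d) →
        0 < 2 * d - mad G ∧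
        mad G + 2 * (r - 1) * d - C * ((2 * d - mad G) * Real.sqrt (2 * d - mad G)) ≤ mcr G r ∧
        mcr G r ≤ mad G + 2 * (r - 1) * d) ∧
    Tendsto (fun k : ℕ => (k : ℝ) *
        (2 * r * d - mcr (completeBipartiteGraph (Fin d) (Fin k)) r)) atTop
      (𝓝 (2 * (d : ℝ) ^ 2)) :=
  ⟨Pool.Agent.H55.SR.uniform r d hr hd, Pool.Agent.H55.SR.limit r d hr hd⟩

end Pool.Agent.Results.MP_09f43a_co.SecondOrder
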